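import Pool.Agent.W912.ND.Defs
import Pool.Agent.H622R2.Ckt.LOC
import Pool.Agent.H622R2.Ckt.CNT

/-!
# An oracle that contains the values of all circuits
-/

set_option autoImplicit false

namespace Pool.Agent.W254.NDCode

open Pool.Agent.NPC Pool.Agent.H620R2.Gauge Pool.Agent.H622R2.Ckt Pool.Agent.W912.ND

/-- the length of the names -/
def ll (S : ℕ) : ℕ := Nat.clog 2 (nC S S)

/-- the length of the codes -/
def RR (K S : ℕ) : ℕ := (ll S + S + 2) ^ (K + 2)

theorem exists_name (S : ℕ) : ∃ f : Circuit → (Fin (ll S) → Bool), ∀ C C' : Circuit,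
    C.size ≤ S → C'.size ≤ S → f C = f C' → ∀ (A : Oracle) (x : List Bool), x.length = S →
      C.eval A x = C'.eval A x := by
  classical
  obtain ⟨F, hF, h⟩ := exists_circuits S S
  have hcard : Fintype.card F ≤ Fintype.card (Fin (ll S) → Bool) := by
    rw [Fintype.card_coe, Fintype.card_fun, Fintype.card_bool, Fintype.card_fin]
    exact hF.trans (Nat.le_pow_clog one_lt_two _)
  obtain ⟨g⟩ := Function.Embedding.nonempty_of_card_le hcard
  choose r hr using h
  refine ⟨fun C => if hC : C.size ≤ S then g ⟨r C hC, (hr C hC).1⟩ else fun _ => false, ?_⟩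
  intro C C' hC hC' h A x hx
  simp only [dif_pos hC, dif_pos hC'] at h
  have h2 := g.injective h
  have h3 : r C hC = r C' hC' := congrArg Subtype.val h2
  rw [← (hr C hC).2.2 A x hx, ← (hr C' hC').2.2 A x hx, h3]

/-- the name of a circuit -/
noncomputable def nm (S : ℕ) : Circuit → (Fin (ll S) → Bool) := (exists_name S).choose

theorem nm_spec (S : ℕ) (C C' : Circuit) (hC : C.size ≤ S) (hC' : C'.size ≤ S)
    (h : nm S C = nm S C') (A : Oracle) (x : List Bool) (hx : x.length = S) :
    C.eval A x = C'.eval A x := (exists_name S).choose_spec C C' hC hC' h A x hx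

/-- the code with a given name -/
def uw (K S : ℕ) (w : Fin (ll S) → Bool) : List Bool :=
  List.replicate S true ++ false ::
    (List.replicate (RR K S - (2 * S + 1 + ll S)) false ++ List.ofFn w)

/-- the code of a circuit -/
noncomputable def uu (K S : ℕ) (C : Circuit) : List Bool := uw K S (nm S C)

theorem le_RR (K S : ℕ) : 2 * S + 1 + ll S ≤ RR K S := by
  unfold RR
  have h1 : (ll S + S + 2) ^ 2 ≤ (ll S + S + 2) ^ (K + 2) :=
    Nat.pow_le_pow_right (by omega) (by omega)
  have h2 : 2 * S + 1 + ll S ≤ (ll S + S + 2) ^ 2 := by nlinarith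
  exact h2.trans h1

theorem length_uw (K S : ℕ) (w : Fin (ll S) → Bool) : (uw K S w).length + S = RR K S := by
  have := le_RR K S
  unfold uw
  simp only [List.length_append, List.length_replicate, List.length_cons, List.length_ofFn]
  omega

theorem parse : ∀ (S S' : ℕ) (a a' : List Bool),
    List.replicate S true ++ false :: a = List.replicate S' true ++ false :: a' → S = S' ∧ a = a'
  | 0, 0, a, a', h => by simpa using h
  | 0, S' + 1, a, a', h => by simp [List.replicate_succ] at h
  | S + 1, 0, a, a', h => by simp [List.replicate_succ] at h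
  | S + 1, S' + 1, a, a', h => by
    rw [List.replicate_succ, List.replicate_succ, List.cons_append, List.cons_append] at h
    obtain ⟨h1, h2⟩ := parse S S' a a' (List.cons.inj h).2
    exact ⟨by rw [h1], h2⟩

theorem uw_inj {K S S' : ℕ} {w : Fin (ll S) → Bool} {w' : Fin (ll S') → Bool} {x x' : List Bool}
    (h : uw K S w ++ x = uw K S' w' ++ x') (hx : x.length = S) (hx' : x'.length = S') :
    S = S' ∧ x = x' ∧ HEq w w' := by
  have h1 : S = S' := by
    unfold uw at h
    rw [List.append_assoc, List.append_assoc, List.cons_append, List.cons_append] at h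
    exact (parse _ _ _ _ h).1
  subst h1
  have h2 : (uw K S w).length = (uw K S w').length := by
    have := length_uw K S w
    have := length_uw K S w'
    omega
  obtain ⟨h3, h4⟩ := List.append_inj h h2
  refine ⟨rfl, h4, ?_⟩
  unfold uw at h3
  have h5 := (parse _ _ _ _ h3).2
  have h6 := List.append_cancel_left h5
  exact heq_of_eq (List.ofFn_injective h6)

/-- being a code -/
def IsC (K : ℕ) (y : List Bool) : Prop :=
  ∃ (S : ℕ) (C : Circuit) (x : List Bool), C.size ≤ S ∧ x.length = S ∧ y = uu K S C ++ x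

open Classical in
/-- the value of a string, if the values of the shorter strings are known -/
noncomputable def stepF (K : ℕ) (O : Oracle) (y : List Bool)
    (rec : ∀ z : List Bool, z.length < y.length → Bool) : Bool :=
  if h : IsC K y then
    h.choose_spec.choose.eval (fun z => if hz : z.length < y.length then rec z hz else false)
      h.choose_spec.choose_spec.choose
  else O y

/-- the oracle -/
noncomputable def AA (K : ℕ) (O : Oracle) : Oracle :=
  (measure (List.length : List Bool → ℕ)).wf.fix (stepF K O)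

theorem AA_eq (K : ℕ) (O : Oracle) (y : List Bool) :
    AA K O y = stepF K O y (fun z _ => AA K O z) :=
  (measure (List.length : List Bool → ℕ)).wf.fix_eq (stepF K O) y

theorem AA_not (K : ℕ) (O : Oracle) (y : List Bool) (h : ¬ IsC K y) : AA K O y = O y := by
  rw [AA_eq]
  unfold stepF
  rw [dif_neg h]

theorem AA_code (K : ℕ) (O : Oracle) (S : ℕ) (C : Circuit) (x : List Bool) (hC : C.size ≤ S)
    (hx : x.length = S) : AA K O (uu K S C ++ x) = C.eval (AA K O) x := by
  have h : IsC K (uu K S C ++ x) := ⟨S, C, x, hC, hx, rfl⟩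
  rw [AA_eq]
  unfold stepF
  rw [dif_pos h]
  obtain ⟨h1, h2, h3⟩ := h.choose_spec.choose_spec.choose_spec
  generalize h.choose_spec.choose_spec.choose = x₀ at *
  generalize h.choose_spec.choose = C₀ at *
  generalize h.choose = S₀ at *
  obtain ⟨h4, h5, h6⟩ := uw_inj (K := K) h3 hx h2
  subst h4
  subst h5
  have h7 := eq_of_heq h6
  rw [← nm_spec S C C₀ hC h1 h7 (AA K O) x hx |>.symm]
  apply eval_local
  intro z hz
  have h8 := length_uw K S (nm S C)
  rw [dif_pos]
  rw [List.length_append, hx]
  omega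

theorem ll_le (S : ℕ) : ll S ≤ (2 * S + 8) * (4 * S + 4) := by
  unfold ll nC
  apply Nat.clog_le_of_le_pow
  rw [pow_mul]
  apply Nat.pow_le_pow_left
  have : 2 * S + 8 < 2 ^ (2 * S + 8) := Nat.lt_two_pow_self
  omega

theorem RR_le (K S : ℕ) : RR K S ≤ (S + 2) ^ (7 * (K + 2)) := by
  unfold RR
  rw [pow_mul]
  apply Nat.pow_le_pow_left
  have h1 := ll_le S
  have h2 : (2 : ℕ) ^ 5 ≤ (S + 2) ^ 5 := Nat.pow_le_pow_left (by omega) 5
  have h3 : ll S + S + 2 ≤ 17 * (S + 2) ^ 2 := by nlinarith
  calc ll S + S + 2 ≤ 17 * (S + 2) ^ 2 := h3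
    _ ≤ (S + 2) ^ 5 * (S + 2) ^ 2 := Nat.mul_le_mul_right _ (by omega)
    _ = (S + 2) ^ 7 := by ring

theorem card_le (K S : ℕ) :
    Set.ncard {y : List Bool | ∃ C x, C.size ≤ S ∧ x.length = S ∧ y = uu K S C ++ x} ≤
      2 ^ (ll S + S) := by
  classical
  set f : (Fin (ll S) → Bool) × (Fin S → Bool) → List Bool :=
    fun p => uw K S p.1 ++ List.ofFn p.2 with hf
  have h1 : {y : List Bool | ∃ C x, C.size ≤ S ∧ x.length = S ∧ y = uu K S C ++ x} ⊆
      Set.range f := by
    rintro y ⟨C, x, hC, hx, rfl⟩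
    subst hx
    refine ⟨(nm x.length C, x.get), ?_⟩
    rw [hf]
    simp only [uu]
    rw [List.ofFn_get]
  calc _ ≤ (Set.range f).ncard := Set.ncard_le_ncard h1 (Set.finite_range f)
    _ ≤ Nat.card ((Fin (ll S) → Bool) × (Fin S → Bool)) := by
      rw [← Set.image_univ, ← Set.ncard_univ]
      exact Set.ncard_image_le Set.finite_univ
    _ = 2 ^ (ll S + S) := by
      rw [Nat.card_eq_fintype_card, Fintype.card_prod]
      simp [pow_add]

theorem s_code : S_CODE := by
  intro K O
  refine ⟨AA K O, RR K, uu K, ?_, ⟨7 * (K + 2), fun S => RR_le K S⟩,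
    fun S C _ => length_uw K S _, fun S C x hC hx => AA_code K O S C x hC hx, ?_, ?_⟩
  · intro S
    unfold RR
    calc (S + 1) ^ K ≤ (ll S + S + 2) ^ K := Nat.pow_le_pow_left (by omega) K
      _ ≤ (ll S + S + 2) ^ (K + 2) := Nat.pow_le_pow_right (by omega) (by omega)
  · intro y hy
    exact AA_not K O y hy
  · intro S
    refine ⟨ll S + S, ?_, card_le K S⟩
    unfold RR
    calc (ll S + S + 1) ^ K ≤ (ll S + S + 2) ^ K := Nat.pow_le_pow_left (by omega) K
      _ ≤ (ll S + S + 2) ^ (K + 2) := Nat.pow_le_pow_right (by omega) (by omega)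

end Pool.Agent.W254.NDCode
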